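import Pool.Agent.N718.GC.Stm

/-! GC/LCI (helper833): the conditions depend only on residue classes. -/

set_option autoImplicit false

namespace Pool.Agent.N833.GC

open Finset Pool.Agent.N718.DC Pool.Agent.N718.GC

/-- the form modulo `M` -/
theorem fm_cong {e : ℕ} (M : ℕ) (c c' : Fin (e + 2) → ℤ) (x y x' y' : ℤ)
    (hc : ∀ j, (M : ℤ) ∣ c j - c' j) (hx : (M : ℤ) ∣ x - x') (hy : (M : ℤ) ∣ y - y') :
    (M : ℤ) ∣ fm c x y - fm c' x' y' := by
  have key : ∀ a b : ℤ, (M : ℤ) ∣ a - b → (a : ZMod M) = (b : ZMod M) := by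
    intro a b h
    have h2 := (ZMod.intCast_zmod_eq_zero_iff_dvd (a - b) M).2 h
    rw [Int.cast_sub, sub_eq_zero] at h2
    exact h2
  rw [← ZMod.intCast_zmod_eq_zero_iff_dvd, Int.cast_sub, sub_eq_zero]
  unfold fm
  push_cast
  rw [key x x' hx, key y y' hy]
  exact sum_congr rfl fun j _ => by rw [key _ _ (hc j)]

theorem fmv_cast {e : ℕ} (c : Fin (e + 2) → ℤ) {R : Type} [CommRing R] (x y : ℤ) :
    fmv c (x : R) (y : R) = ((fm c x y : ℤ) : R) := by
  unfold fmv fm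
  push_cast
  rfl

theorem dvd_of_pow {p M : ℕ} {n : ℕ} (hn : n ≤ padicValNat p M) {F F' : ℤ}
    (h : (M : ℤ) ∣ F - F') (hF : (p : ℤ) ^ n ∣ F') : (p : ℤ) ^ n ∣ F := by
  have h1 : p ^ n ∣ M := (pow_dvd_pow p hn).trans pow_padicValNat_dvd
  have h2 : (p : ℤ) ^ n ∣ (M : ℤ) := by exact_mod_cast h1
  have h3 := h2.trans h
  have := dvd_add h3 hF
  rwa [sub_add_cancel] at this

theorem lci_ (h1 : S_KAP) (h2 : S_LOCN) : S_LCI := by
  intro r m E e hE M hB γ γ' s a₀ a₁ a₀' a₁' hs hγ ha0 ha1 hLC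
  obtain ⟨hLV, hK⟩ := hLC
  have hcong : ∀ i, (M : ℤ) ∣ fm (γ i) a₀ a₁ - fm (γ' i) a₀' a₁' := fun i =>
    fm_cong M _ _ _ _ _ _ (hγ i) ha0 ha1
  have hcong' : ∀ i, (M : ℤ) ∣ fm (γ' i) a₀' a₁' - fm (γ i) a₀ a₁ := fun i => by
    rw [← neg_sub, dvd_neg]; exact hcong i
  have hdl : ∀ p, 3 ≤ dl E p := fun p => by unfold dl; omega
  have hval : ∀ p : ℕ, p.Prime → p ∣ M → dl E p ≤ padicValNat p M ∧
      ∀ i, ¬ (p : ℤ) ^ (padicValNat p M - dl E p + 1) ∣ fm (γ' i) a₀' a₁' := by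
    intro p hp hpM
    obtain ⟨h3, h4⟩ := hLV.val p hp hpM
    refine ⟨h3, fun i h5 => h4 i (dvd_of_pow ?_ (hcong i) h5)⟩
    have := hdl p
    omega
  have ha : ∀ j, E.a j ≠ 0 := by
    intro j h0
    apply hE.ha {j} (singleton_nonempty j)
    rw [prod_singleton, h0]
    exact ⟨0, by simp⟩
  refine ⟨⟨hval, ?_⟩, ?_⟩
  · intro p hp hpM
    obtain ⟨h3, h4⟩ := hLV.val p hp.out hpM
    obtain ⟨h5, h6⟩ := hLV.sol p hpM
    obtain ⟨-, h4'⟩ := hval p hp.out hpM
    have h3' := hdl p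
    have hz : ∀ i, ∃ z : ℚ_[p], z ≠ 0 ∧
        ((fm (γ' i) a₀' a₁' : ℤ) : ℚ_[p]) = (fm (γ i) a₀ a₁ : ℤ) * z ^ 2 := by
      intro i
      refine h2.2.1 p (fm (γ i) a₀ a₁) (fm (γ' i) a₀' a₁') (padicValNat p M - dl E p) (h4 i) ?_
      have h7 : p ^ (padicValNat p M - dl E p + 3) ∣ M :=
        (pow_dvd_pow p (by omega)).trans pow_padicValNat_dvd
      have h8 : (p : ℤ) ^ (padicValNat p M - dl E p + 3) ∣ (M : ℤ) := by exact_mod_cast h7
      exact h8.trans (hcong i)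
    choose z hz0 hz using hz
    refine ⟨fun i => ?_, fun j => ?_⟩
    · rw [fmv_cast, Int.cast_ne_zero]
      intro h0
      exact h4' i (by rw [h0]; exact dvd_zero _)
    · have h7 : rhs E γ' j ((a₀' : ℤ) : ℚ_[p]) ((a₁' : ℤ) : ℚ_[p]) =
          rhs E γ j ((a₀ : ℤ) : ℚ_[p]) ((a₁ : ℤ) : ℚ_[p]) * (∏ i ∈ E.I j, z i) ^ 2 := by
        unfold rhs
        rw [mul_assoc, ← prod_pow, ← prod_mul_distrib]
        congr 1
        refine prod_congr rfl fun i _ => ?_
        rw [fmv_cast, fmv_cast, hz]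
      rw [h7]
      exact h2.2.2.1 _ _ _ _ (h6 j)
  · intro j i hij
    have hk := hK j i hij
    unfold kps at hk ⊢
    refine Eq.trans ?_ hk
    obtain ⟨hM1, hM2, hMb⟩ := hB
    have hcont : Cont M (E.a j) := by
      refine ⟨hM1, hM2, fun p hp hpa => hMb p hp ?_⟩
      exact hpa.trans ((Dvd.intro _ rfl).trans
        (dvd_prod_of_mem (fun j => E.a j * E.b j) (mem_univ j)))
    have hM0 : (1 : ℤ) ≤ (M : ℤ) := by exact_mod_cast hM1
    have hpos : ∀ F : ℤ, 0 < s i * (F + s i * (M * (|F| + 1))) := by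
      intro F
      have hss : s i * s i = 1 := by
        rcases hs i with h | h <;> rw [h] <;> norm_num
      have h3 : s i * (F + s i * (M * (|F| + 1))) = s i * F + M * (|F| + 1) := by
        linear_combination (M * (|F| + 1) : ℤ) * hss
      rw [h3]
      have h4 : -|F| ≤ s i * F := by
        rcases hs i with h | h <;> rw [h]
        · rw [one_mul]; exact neg_abs_le F
        · rw [neg_one_mul]; exact neg_le_neg (le_abs_self F)
      have h5 : 0 ≤ |F| := abs_nonneg F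
      nlinarith
    refine h1.1 M (E.a j) (ha j) hcont _ _ ?_ ?_ ?_
    · have h3 := hpos (fm (γ' i) a₀' a₁')
      have h4 := hpos (fm (γ i) a₀ a₁)
      have h5 := mul_pos h3 h4
      have hss : s i * s i = 1 := by
        rcases hs i with h | h <;> rw [h] <;> norm_num
      have h6 : ∀ u v : ℤ, (s i * u) * (s i * v) = u * v := by
        intro u v
        linear_combination (u * v) * hss
      rw [h6] at h5
      exact h5
    · obtain ⟨t, ht⟩ := hcong' i
      refine ⟨t + s i * (|fm (γ' i) a₀' a₁'| - |fm (γ i) a₀ a₁|), ?_⟩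
      linear_combination ht
    · intro p hp hpM
      obtain ⟨h3, h4⟩ := hval p hp hpM
      have hfp : Fact p.Prime := ⟨hp⟩
      have h5 : padicValNat p (4 * (E.a j).natAbs) + 3 ≤ dl E p := by
        unfold dl
        have h6 : 4 * (E.a j).natAbs ∣ 4 * ∏ j, (E.a j).natAbs :=
          mul_dvd_mul_left 4 (dvd_prod_of_mem (fun j => (E.a j).natAbs) (mem_univ j))
        have h7 : 4 * ∏ j, (E.a j).natAbs ≠ 0 :=
          mul_ne_zero (by norm_num) (prod_ne_zero_iff.2 fun j _ => Int.natAbs_ne_zero.2 (ha j))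
        have h8 : padicValNat p (4 * (E.a j).natAbs) ≤ padicValNat p (4 * ∏ j, (E.a j).natAbs) := by
          rw [← padicValNat_dvd_iff_le h7]
          exact pow_padicValNat_dvd.trans h6
        omega
      refine ⟨by omega, fun h6 => h4 i ?_⟩
      have h7 : (p : ℤ) ^ (padicValNat p M - dl E p + 1) ∣
          fm (γ' i) a₀' a₁' + s i * (M * (|fm (γ' i) a₀' a₁'| + 1)) :=
        (pow_dvd_pow _ (by omega)).trans h6
      have h8 := hdl p
      refine dvd_of_pow (M := M) (n := padicValNat p M - dl E p + 1) (by omega) (F' := fm (γ' i) a₀' a₁' + s i *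
        (M * (|fm (γ' i) a₀' a₁'| + 1))) ?_ h7
      exact ⟨-(s i * (|fm (γ' i) a₀' a₁'| + 1)), by ring⟩

end Pool.Agent.N833.GC
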